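import Pool.Agent.H.MP_aeb38e_lc.SJ.Alg

/-!
The functions computed by the algorithm with the product potential.
-/

namespace Pool.Agent.H.JS

open Turing Pool.Agent.H.MP_5be563_lc.PT

/-- The largest processing time. -/
def pA (I : Shop) : ℕ := lmax (I.2.flatMap fun job => job.map Prod.snd)

/-- The factor of the job `j`. -/
def facB (I : Shop) (N q : ℕ) (ds : List ℕ) (u w j : ℕ) : ℕ :=
  bif decide (j < ds.length) then N * (q + winA (I.2.getD j []) (ds.getD j 0) u w)
  else q * N + rsum N fun d => winA (I.2.getD j []) d u w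

/-- The product of the factors, in binary. -/
def prodB (I : Shop) (N q : ℕ) (ds : List ℕ) (u w : ℕ) : List Bool :=
  bprod ((List.range I.2.length).map fun j => Acc.bin (facB I N q ds u w j))

/-- The potential, in binary. -/
def phiB (I : Shop) (N n q : ℕ) (ds : List ℕ) : List Bool :=
  bsum ((List.range I.1).flatMap fun u => (List.range (N + n)).map fun w => prodB I N q ds u w)

/-- The next delay. -/
def nextB (I : Shop) (N n q : ℕ) (ds : List ℕ) : ℕ :=
  ((List.range N).find? fun d => ble (phiB I N n q (ds ++ [d])) (phiB I N n q ds)).getD 0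

/-- The delays. -/
def delB (I : Shop) (N n q : ℕ) : List ℕ := (fun ds => ds ++ [nextB I N n q ds])^[I.2.length] []

/-- The schedule found by the algorithm. -/
def algB (x : Shop × ℕ) : List (List (List Bool)) :=
  (List.range x.1.2.length).map fun j => (List.range (x.1.2.getD j []).length).map fun i =>
    Acc.bin (scA x.1 (delB x.1 (2 * x.2 * nA x.1) (nA x.1) (2 * x.2 * pA x.1)) j i)

theorem nextB_le (I : Shop) (N n q : ℕ) (ds : List ℕ) : nextB I N n q ds ≤ N := by
  unfold nextB
  rcases h : ((List.range N).find? fun d =>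
    ble (phiB I N n q (ds ++ [d])) (phiB I N n q ds)) with _ | d
  · exact Nat.zero_le _
  · have := List.mem_range.1 (List.mem_of_find?_eq_some h)
    exact this.le

theorem iterB_len (I : Shop) (N n q t : ℕ) :
    ((fun ds => ds ++ [nextB I N n q ds])^[t] []).length = t ∧
      ∀ d ∈ (fun ds => ds ++ [nextB I N n q ds])^[t] [], d ≤ N := by
  induction t with
  | zero => exact ⟨rfl, by simp⟩
  | succ t ih =>
    rw [Function.iterate_succ_apply']
    refine ⟨by simp [ih.1], fun d hd => ?_⟩
    rw [List.mem_append, List.mem_singleton] at hd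
    rcases hd with hd | hd
    · exact ih.2 d hd
    · rw [hd]
      exact nextB_le _ _ _ _ _

section
variable {α : Type} [Enc α]

@[fun_prop]
theorem Poly.pA {I : α → Shop} (hI : Poly I) : Poly (fun a => pA (I a)) := by
  unfold JS.pA
  fun_prop

@[fun_prop]
theorem Poly.facB {I : α → Shop} {N q u w j : α → ℕ} {ds : α → List ℕ} (hI : Poly I)
    (hN : Poly N) (hq : Poly q) (hd : Poly ds) (hu : Poly u) (hw : Poly w) (hj : Poly j) :
    Poly (fun a => facB (I a) (N a) (q a) (ds a) (u a) (w a) (j a)) := by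
  unfold JS.facB
  fun_prop

@[fun_prop]
theorem Poly.prodB {I : α → Shop} {N q u w : α → ℕ} {ds : α → List ℕ} (hI : Poly I)
    (hN : Poly N) (hq : Poly q) (hd : Poly ds) (hu : Poly u) (hw : Poly w) :
    Poly (fun a => prodB (I a) (N a) (q a) (ds a) (u a) (w a)) := by
  unfold JS.prodB
  fun_prop

@[fun_prop]
theorem Poly.phiB {I : α → Shop} {N n q : α → ℕ} {ds : α → List ℕ} (hI : Poly I)
    (hN : Poly N) (hn : Poly n) (hq : Poly q) (hd : Poly ds) :
    Poly (fun a => phiB (I a) (N a) (n a) (q a) (ds a)) := by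
  unfold JS.phiB
  fun_prop

@[fun_prop]
theorem Poly.nextB {I : α → Shop} {N n q : α → ℕ} {ds : α → List ℕ} (hI : Poly I)
    (hN : Poly N) (hn : Poly n) (hq : Poly q) (hd : Poly ds) :
    Poly (fun a => nextB (I a) (N a) (n a) (q a) (ds a)) := by
  unfold JS.nextB
  fun_prop

@[fun_prop]
theorem Poly.delB {I : α → Shop} {N n q : α → ℕ} (hI : Poly I) (hN : Poly N)
    (hn : Poly n) (hq : Poly q) : Poly (fun a => delB (I a) (N a) (n a) (q a)) := by
  unfold JS.delB
  have h1 : Poly (fun a => (I a).2.length) := by fun_prop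
  refine Poly.iterate (f := fun a ds => ds ++ [JS.nextB (I a) (N a) (n a) (q a) ds])
    (s := fun _ => ([] : List ℕ)) (n := fun a => (I a).2.length)
    (B := fun a => sz ((I a).2.length) * (sz (N a) + 1) + 1) (by fun_prop) (by fun_prop) h1
    ((h1.sz_le.mul (hN.sz_le.add (PBdd.const 1))).add (PBdd.const 1)) fun a k hk => ?_
  obtain ⟨h2, h3⟩ := iterB_len (I a) (N a) (n a) (q a) k
  refine (sz_le_of_forall _ (sz (N a)) fun d hd => ?_).trans ?_
  · have := h3 d hd
    rw [sz_nat, sz_nat]
    omega
  · rw [h2]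
    have h4 : k ≤ sz ((I a).2.length) := by
      rw [sz_nat]
      omega
    exact Nat.add_le_add_right (Nat.mul_le_mul_right _ h4) _

end

theorem poly_algB : Poly algB := by
  have h1 : Poly (fun x : Shop × ℕ =>
      delB x.1 (2 * x.2 * nA x.1) (nA x.1) (2 * x.2 * pA x.1)) := by fun_prop
  have h2 : Poly (fun y : (Shop × ℕ) × List ℕ => (List.range y.1.1.2.length).map fun j =>
      (List.range (y.1.1.2.getD j []).length).map fun i => Acc.bin (scA y.1.1 y.2 j i)) := by
    fun_prop
  exact Poly.comp (f := fun y : (Shop × ℕ) × List ℕ => (List.range y.1.1.2.length).map fun j =>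
      (List.range (y.1.1.2.getD j []).length).map fun i => Acc.bin (scA y.1.1 y.2 j i))
    (g := fun x : Shop × ℕ => (x, delB x.1 (2 * x.2 * nA x.1) (nA x.1) (2 * x.2 * pA x.1))) h2
    (Poly.pair Poly.id h1)

/-- The machine. -/
theorem exists_machB : ∃ (tm : FinTM2) (iA : tm.Γ tm.k₀ ≃ Bool) (oA : tm.Γ tm.k₁ ≃ Bool)
    (p : Polynomial ℕ), ∀ x : Shop × ℕ, Outputs tm iA oA (codePair codeShop codeNat x)
      (codeSched (algB x)) (p.eval (codePair codeShop codeNat x).length) := by
  obtain ⟨M⟩ := poly_algB.tm2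
  refine ⟨M.tm, M.inputAlphabet, M.outputAlphabet, M.time, fun x => ?_⟩
  rw [← bits_in1, ← bits_sched]
  exact ⟨M.outputsFun x⟩

end Pool.Agent.H.JS
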