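import Pool.Agent.H.MP_aeb38e_lc.SJ.Bound

/-!
The product potential, and the bound for the makespan.
-/

namespace Pool.Agent.H.JS

open Finset

/-- Averaging over the next delay. -/
theorem exists_step {ι : Type*} (P : Finset ι) (N : ℕ) (hN : 0 < N) (A : ι → ℕ) (X : ℕ → ι → ℕ)
    (q : ℕ) : ∃ d < N, ∑ x ∈ P, A x * (N * (q + X d x)) ≤
      ∑ x ∈ P, A x * (q * N + ∑ d' ∈ range N, X d' x) := by
  by_contra hc
  push Not at hc
  have h1 : ∑ d ∈ range N, ∑ x ∈ P, A x * (q * N + ∑ d' ∈ range N, X d' x) <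
      ∑ d ∈ range N, ∑ x ∈ P, A x * (N * (q + X d x)) :=
    sum_lt_sum_of_nonempty ⟨0, mem_range.2 hN⟩ fun d hd => hc d (mem_range.1 hd)
  rw [sum_const, card_range, smul_eq_mul, mul_sum, sum_comm] at h1
  have h2 : ∑ x ∈ P, ∑ d ∈ range N, A x * (N * (q + X d x)) =
      ∑ x ∈ P, N * (A x * (q * N + ∑ d' ∈ range N, X d' x)) := by
    refine sum_congr rfl fun x _ => ?_
    rw [← mul_sum, ← mul_sum, sum_add_distrib, sum_const, card_range, smul_eq_mul]
    ring
  rw [h2] at h1
  exact lt_irrefl _ h1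

theorem exp_le_fac {q p e X : ℝ} (hq : q = 2 * e * p) (he : 0 < e) (hp : 0 < p) (hX : 0 ≤ X)
    (hXp : X ≤ p) : Real.exp (2 / ((4 * e + 1) * p) * X) ≤ 1 + X / q := by
  have hq0 : 0 < q := by rw [hq]; positivity
  have h1 := Real.le_log_one_add_of_nonneg (div_nonneg hX hq0.le)
  have h2 : 2 / ((4 * e + 1) * p) * X ≤ 2 * (X / q) / (X / q + 2) := by
    have e1 : 2 * (X / q) / (X / q + 2) = 2 * X / (X + 2 * q) := by
      field_simp
    rw [e1, div_mul_eq_mul_div]
    refine div_le_div_of_nonneg_left (by positivity) (by positivity) ?_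
    rw [hq]
    nlinarith
  have h3 : (0 : ℝ) < 1 + X / q := by positivity
  calc Real.exp (2 / ((4 * e + 1) * p) * X) ≤ Real.exp (Real.log (1 + X / q)) :=
        Real.exp_le_exp.2 (h2.trans h1)
    _ = 1 + X / q := Real.exp_log h3

/-- The bound for the makespan. -/
theorem startc_le_log {I : Shop} {n p C e : ℕ} (he : 0 < e)
    (hn : ∀ job ∈ I.2, job.length ≤ n) (hp : ∀ job ∈ I.2, ∀ o ∈ job, o.2 ≤ p)
    (hC : ∀ u < I.1, load I u ≤ C) (hn0 : 0 < n) (hp0 : 0 < p) (d : ℕ → ℕ)
    (hd : ∑ x ∈ range I.1 ×ˢ range (2 * e * n + n), ∏ j ∈ range I.2.length,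
        (2 * e * n) * (2 * e * p + winc (jobc I j) (d j) x.1 x.2) ≤
      ∑ x ∈ range I.1 ×ˢ range (2 * e * n + n), ∏ j ∈ range I.2.length,
        (2 * e * p * (2 * e * n) + meanc (2 * e * n) (jobc I j) x.1 x.2)) :
    8 * (e : ℝ) * startc I d (2 * e * n + n) ≤
      (8 * e + 7) * (C + 4 * (e : ℝ) ^ 2 * (n * p) * Real.log I.1) := by
  have heR : (1 : ℝ) ≤ e := by exact_mod_cast he
  have hpR : (0 : ℝ) < p := by exact_mod_cast hp0
  have hnR : (0 : ℝ) < n := by exact_mod_cast hn0
  rcases Nat.eq_zero_or_pos I.1 with hm0 | hm0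
  · have h1 : startc I d (2 * e * n + n) = 0 := by
      refine sum_eq_zero fun w _ => ?_
      unfold lenc
      rw [hm0]
      rfl
    rw [h1, hm0]
    simp only [Nat.cast_zero, mul_zero, Real.log_zero, add_zero]
    positivity
  set N := 2 * e * n with hN
  set q := 2 * e * p with hq
  have hNR : (N : ℝ) = 2 * e * n := by rw [hN]; push_cast; ring
  have hqR : (q : ℝ) = 2 * e * p := by rw [hq]; push_cast; ring
  have hN0 : (0 : ℝ) < N := by rw [hNR]; positivity
  have hq0 : (0 : ℝ) < q := by rw [hqR]; positivity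
  set k := I.2.length with hk
  set a : ℝ := 2 / ((4 * e + 1) * p) with ha
  have ha0 : 0 < a := by rw [ha]; positivity
  have hmR : (1 : ℝ) ≤ I.1 := by exact_mod_cast hm0
  have hQ : (0 : ℝ) < ((q : ℝ) * N) ^ k := by positivity
  -- upper bound of the initial potential
  have hA : ∀ u < I.1, ∀ w, ∏ j ∈ range k, ((q : ℝ) * N + meanc N (jobc I j) u w) ≤
      ((q : ℝ) * N) ^ k * Real.exp (C / (q * N)) := by
    intro u hu w
    have h1 : ∀ j ∈ range k, (q : ℝ) * N + meanc N (jobc I j) u w ≤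
        (q * N) * Real.exp ((meanc N (jobc I j) u w : ℝ) / (q * N)) := by
      intro j _
      have h2 := Real.add_one_le_exp ((meanc N (jobc I j) u w : ℝ) / (q * N))
      have h3 : (q : ℝ) * N + meanc N (jobc I j) u w =
          (q * N) * ((meanc N (jobc I j) u w : ℝ) / (q * N) + 1) := by
        field_simp
        ring
      rw [h3]
      exact mul_le_mul_of_nonneg_left h2 (by positivity)
    refine (prod_le_prod (fun j _ => by positivity) h1).trans ?_
    rw [prod_mul_distrib, prod_const, card_range, ← Real.exp_sum]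
    refine mul_le_mul_of_nonneg_left (Real.exp_le_exp.2 ?_) hQ.le
    rw [← sum_div]
    refine div_le_div_of_nonneg_right ?_ (by positivity)
    have h4 : ∑ j ∈ range k, meanc N (jobc I j) u w ≤ C := by
      refine le_trans ?_ (hC u hu)
      rw [← load_eq hn]
      exact sum_le_sum fun j _ => meanc_le (jobc_length hn j) N u w
    exact_mod_cast h4
  -- lower bound of the final potential
  have hB : ∀ u w, ((q : ℝ) * N) ^ k * Real.exp (a * ldc I d u w) ≤
      ∏ j ∈ range k, ((N : ℝ) * (q + winc (jobc I j) (d j) u w)) := by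
    intro u w
    have h1 : ((q : ℝ) * N) ^ k * Real.exp (a * ldc I d u w) =
        ∏ j ∈ range k, ((q : ℝ) * N) * Real.exp (a * winc (jobc I j) (d j) u w) := by
      rw [prod_mul_distrib, prod_const, card_range, ← Real.exp_sum, ← mul_sum]
      unfold ldc
      push_cast
      rfl
    rw [h1]
    refine prod_le_prod (fun j _ => by positivity) fun j _ => ?_
    have hX : (winc (jobc I j) (d j) u w : ℝ) ≤ p := by
      have : winc (jobc I j) (d j) u w ≤ p := by
        unfold winc
        split_ifs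
        · exact opc_le (jobc_time hp j) u _
        · exact Nat.zero_le _
      exact_mod_cast this
    have h2 := exp_le_fac hqR (by linarith) hpR (Nat.cast_nonneg _) hX
    have h3 : (N : ℝ) * (q + winc (jobc I j) (d j) u w) =
        (q * N) * (1 + (winc (jobc I j) (d j) u w : ℝ) / q) := by
      field_simp
    rw [h3]
    exact mul_le_mul_of_nonneg_left h2 (by positivity)
  have hdR : ∑ x ∈ range I.1 ×ˢ range (N + n), ∏ j ∈ range k,
        ((N : ℝ) * (q + winc (jobc I j) (d j) x.1 x.2)) ≤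
      ∑ x ∈ range I.1 ×ˢ range (N + n), ∏ j ∈ range k,
        ((q : ℝ) * N + meanc N (jobc I j) x.1 x.2) := by
    have h := (Nat.cast_le (α := ℝ)).2 hd
    push_cast at h
    exact h
  have h1 : ∑ w ∈ range (N + n), ((q : ℝ) * N) ^ k * Real.exp (a * lenc I d w) ≤
      ∑ x ∈ range I.1 ×ˢ range (N + n), ∏ j ∈ range k,
        ((N : ℝ) * (q + winc (jobc I j) (d j) x.1 x.2)) := by
    rw [sum_product, sum_comm]
    refine sum_le_sum fun w _ => ?_
    have h2 : ∀ u < I.1, ((q : ℝ) * N) ^ k * Real.exp (a * ldc I d u w) ≤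
        ∑ u ∈ range I.1, ∏ j ∈ range k, ((N : ℝ) * (q + winc (jobc I j) (d j) u w)) := by
      intro u hu
      exact (hB u w).trans (single_le_sum
        (f := fun u => ∏ j ∈ range k, ((N : ℝ) * (q + winc (jobc I j) (d j) u w)))
        (fun _ _ => prod_nonneg fun _ _ => by positivity) (mem_range.2 hu))
    rcases lenc_cases I d w with h3 | ⟨u, hu, h3⟩
    · rw [h3]
      refine le_trans ?_ (h2 0 hm0)
      refine mul_le_mul_of_nonneg_left (Real.exp_le_exp.2 ?_) hQ.le
      have : (0 : ℝ) ≤ a * ldc I d 0 w := by positivity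
      simpa using this
    · rw [h3]
      exact h2 u hu
  have h2 : ∑ x ∈ range I.1 ×ˢ range (N + n), ∏ j ∈ range k,
      ((q : ℝ) * N + meanc N (jobc I j) x.1 x.2) ≤
        (I.1 * (N + n)) * (((q : ℝ) * N) ^ k * Real.exp (C / (q * N))) := by
    calc ∑ x ∈ range I.1 ×ˢ range (N + n), ∏ j ∈ range k,
        ((q : ℝ) * N + meanc N (jobc I j) x.1 x.2) ≤
        ∑ x ∈ range I.1 ×ˢ range (N + n), ((q : ℝ) * N) ^ k * Real.exp (C / (q * N)) := by
          refine sum_le_sum fun x hx => ?_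
          exact hA x.1 (mem_range.1 (mem_product.1 hx).1) x.2
      _ = _ := by
          rw [sum_const, card_product, card_range, card_range, nsmul_eq_mul]
          push_cast
          ring
  have h3 : ((q : ℝ) * N) ^ k * ∑ w ∈ range (N + n), Real.exp (a * lenc I d w) ≤
      ((q : ℝ) * N) ^ k * ((I.1 * (N + n)) * Real.exp (C / (q * N))) := by
    rw [mul_sum]
    calc ∑ w ∈ range (N + n), ((q : ℝ) * N) ^ k * Real.exp (a * lenc I d w) ≤
        (I.1 * (N + n)) * (((q : ℝ) * N) ^ k * Real.exp (C / (q * N))) :=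
          h1.trans (hdR.trans h2)
      _ = _ := by ring
  have h4 := le_of_mul_le_mul_left h3 hQ
  set c : ℝ := Real.log I.1 + C / (q * N) with hc
  have hexp : Real.exp c = I.1 * Real.exp (C / (q * N)) := by
    rw [hc, Real.exp_add, Real.exp_log (by linarith)]
  have h5 : Real.exp c * (((N : ℝ) + n) * (1 - c) + a * startc I d (N + n)) ≤
      Real.exp c * ((N : ℝ) + n) := by
    have h6 : ∀ w, Real.exp c * (1 + a * lenc I d w - c) ≤ Real.exp (a * lenc I d w) := by
      intro w
      have h7 := Real.add_one_le_exp (a * lenc I d w - c)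
      calc Real.exp c * (1 + a * lenc I d w - c) ≤
          Real.exp c * Real.exp (a * lenc I d w - c) :=
            mul_le_mul_of_nonneg_left (by linarith) (Real.exp_pos _).le
        _ = Real.exp (a * lenc I d w) := by rw [← Real.exp_add]; ring_nf
    have h8 : ∑ w ∈ range (N + n), Real.exp c * (1 + a * lenc I d w - c) ≤
        ∑ w ∈ range (N + n), Real.exp (a * lenc I d w) := sum_le_sum fun w _ => h6 w
    have h9 : ∑ w ∈ range (N + n), Real.exp c * (1 + a * lenc I d w - c) =
        Real.exp c * (((N : ℝ) + n) * (1 - c) + a * startc I d (N + n)) := by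
      rw [← mul_sum]
      congr 1
      have h10 : ∀ w, (1 + a * lenc I d w - c : ℝ) = (1 - c) + a * lenc I d w :=
        fun w => by ring
      simp only [h10]
      rw [sum_add_distrib, sum_const, card_range, nsmul_eq_mul, ← mul_sum]
      unfold startc
      push_cast
      rfl
    rw [← h9]
    refine h8.trans (h4.trans (le_of_eq ?_))
    rw [hexp]
    ring
  have h6 := le_of_mul_le_mul_left h5 (Real.exp_pos _)
  have h7 : a * startc I d (N + n) ≤ ((N : ℝ) + n) * c := by linarith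
  -- the numbers
  set S : ℝ := (startc I d (N + n) : ℝ) with hS
  have h8 : 2 * S ≤ ((4 * e + 1) * p) * (((N : ℝ) + n) * c) := by
    have h9 : ((4 * (e : ℝ) + 1) * p) * (a * S) ≤ ((4 * e + 1) * p) * (((N : ℝ) + n) * c) :=
      mul_le_mul_of_nonneg_left h7 (by positivity)
    have h10 : ((4 * (e : ℝ) + 1) * p) * (a * S) = 2 * S := by
      rw [ha]
      field_simp
    linarith
  have h9 : ((4 * (e : ℝ) + 1) * p) * (((N : ℝ) + n) * c) =
      (4 * e + 1) * (2 * e + 1) * ((n * p) * Real.log I.1 + C / (4 * e ^ 2)) := by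
    rw [hc, hNR, hqR]
    field_simp
    ring
  have h10 : 4 * (e : ℝ) ^ 2 * ((n * p) * Real.log I.1 + C / (4 * e ^ 2)) =
      C + 4 * (e : ℝ) ^ 2 * (n * p) * Real.log I.1 := by
    field_simp
    ring
  set Y : ℝ := C + 4 * (e : ℝ) ^ 2 * (n * p) * Real.log I.1 with hY
  have hY0 : 0 ≤ Y := by
    have : 0 ≤ Real.log I.1 := Real.log_nonneg hmR
    rw [hY]
    positivity
  have h11 : 8 * (e : ℝ) ^ 2 * S ≤ (4 * e + 1) * (2 * e + 1) * Y := by
    calc 8 * (e : ℝ) ^ 2 * S = 4 * (e : ℝ) ^ 2 * (2 * S) := by ring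
      _ ≤ 4 * (e : ℝ) ^ 2 * (((4 * e + 1) * p) * (((N : ℝ) + n) * c)) :=
          mul_le_mul_of_nonneg_left h8 (by positivity)
      _ = (4 * e + 1) * (2 * e + 1) *
          (4 * (e : ℝ) ^ 2 * ((n * p) * Real.log I.1 + C / (4 * e ^ 2))) := by rw [h9]; ring
      _ = _ := by rw [h10]
  have h12 : (4 * (e : ℝ) + 1) * (2 * e + 1) * Y ≤ e * ((8 * e + 7) * Y) := by
    have h13 : (4 * (e : ℝ) + 1) * (2 * e + 1) ≤ e * (8 * e + 7) := by nlinarith
    calc (4 * (e : ℝ) + 1) * (2 * e + 1) * Y ≤ e * (8 * e + 7) * Y :=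
          mul_le_mul_of_nonneg_right h13 hY0
      _ = _ := by ring
  have h13 : (e : ℝ) * (8 * e * S) ≤ e * ((8 * e + 7) * Y) := by
    calc (e : ℝ) * (8 * e * S) = 8 * (e : ℝ) ^ 2 * S := by ring
      _ ≤ _ := h11.trans h12
  exact le_of_mul_le_mul_left h13 (by linarith)

end Pool.Agent.H.JS
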