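import Pool.Agent.H.MP_aeb38e_lc.SJ.Cor
import Pool.Agent.H.MP_aeb38e_lc.SK.Fun
import Pool.Agent.H.MP_aeb38e_lc.SK.Pot

/-!
Correctness of the algorithm with the product potential.
-/

namespace Pool.Agent.H.JS

open Finset Pool.Agent.H.MP_5be563_lc.PT

/-- The factor of the job `j`. -/
def facF (I : Shop) (N q : ℕ) (ds : List ℕ) (u w j : ℕ) : ℕ :=
  if j < ds.length then N * (q + winc (jobc I j) (ds.getD j 0) u w)
  else q * N + meanc N (jobc I j) u w

theorem facB_eq (I : Shop) (N q : ℕ) (ds : List ℕ) (u w j : ℕ) :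
    facB I N q ds u w j = facF I N q ds u w j := by
  unfold facB facF
  by_cases h : j < ds.length
  · rw [if_pos h, decide_eq_true h, cond_true, winA_eq]
    rfl
  · rw [if_neg h, decide_eq_false h, cond_false, rsum_eq]
    congr 1
    unfold meanc
    exact sum_congr rfl fun d _ => winA_eq _ _ _ _

theorem list_prod_range (k : ℕ) (f : ℕ → ℕ) :
    ((List.range k).map f).prod = ∏ j ∈ range k, f j := by
  induction k with
  | zero => rfl
  | succ k ih => rw [List.range_succ, List.map_append, List.prod_append, ih, prod_range_succ]; simp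

theorem list_sum_range (k : ℕ) (f : ℕ → ℕ) :
    ((List.range k).map f).sum = ∑ j ∈ range k, f j := by
  induction k with
  | zero => rfl
  | succ k ih => rw [List.range_succ, List.map_append, List.sum_append, ih, sum_range_succ]; simp

theorem prodB_eq (I : Shop) (N q : ℕ) (ds : List ℕ) (u w : ℕ) :
    bval (prodB I N q ds u w) = ∏ j ∈ range I.2.length, facF I N q ds u w j := by
  unfold prodB
  rw [bval_bprod, List.map_map, ← list_prod_range]
  congr 1
  refine List.map_congr_left fun j _ => ?_
  show bval (Acc.bin (facB I N q ds u w j)) = _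
  rw [Acc.bval_bin, facB_eq]

theorem phiB_eq (I : Shop) (N n q : ℕ) (ds : List ℕ) : bval (phiB I N n q ds) =
    ∑ x ∈ range I.1 ×ˢ range (N + n), ∏ j ∈ range I.2.length, facF I N q ds x.1 x.2 j := by
  unfold phiB
  rw [bval_bsum, sum_product]
  have h1 : ∀ l : List ℕ, ((l.flatMap fun u => (List.range (N + n)).map fun w =>
      prodB I N q ds u w).map bval).sum = (l.map fun u => ∑ w ∈ range (N + n),
        ∏ j ∈ range I.2.length, facF I N q ds u w j).sum := by
    intro l
    induction l with
    | nil => rfl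
    | cons a l ih =>
      rw [List.flatMap_cons, List.map_append, List.sum_append, ih, List.map_cons, List.sum_cons]
      congr 1
      rw [List.map_map, ← list_sum_range]
      congr 1
      refine List.map_congr_left fun w _ => ?_
      exact prodB_eq _ _ _ _ _ _
  rw [h1, list_sum_range]

theorem exists_nextB {I : Shop} {N n q : ℕ} (hN : 0 < N) (ds : List ℕ)
    (hk : ds.length < I.2.length) :
    ∃ d < N, bval (phiB I N n q (ds ++ [d])) ≤ bval (phiB I N n q ds) := by
  obtain ⟨d, hd, h⟩ := exists_step (range I.1 ×ˢ range (N + n)) N hN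
    (fun x => ∏ j ∈ (range I.2.length).erase ds.length, facF I N q ds x.1 x.2 j)
    (fun d x => winc (jobc I ds.length) d x.1 x.2) q
  refine ⟨d, hd, ?_⟩
  have hmem : ds.length ∈ range I.2.length := mem_range.2 hk
  rw [phiB_eq, phiB_eq]
  refine le_trans (le_of_eq (sum_congr rfl fun x _ => ?_))
    (h.trans (le_of_eq (sum_congr rfl fun x _ => ?_)))
  · rw [← prod_erase_mul (range I.2.length) _ hmem]
    congr 1
    · refine prod_congr rfl fun j hj => ?_
      have hne : j ≠ ds.length := (mem_erase.1 hj).1
      unfold facF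
      rw [List.length_append, List.length_singleton]
      by_cases h1 : j < ds.length
      · rw [if_pos h1, if_pos (by omega), getD_append_left ds d j h1]
      · rw [if_neg h1, if_neg (by omega)]
    · unfold facF
      rw [List.length_append, List.length_singleton, if_pos (Nat.lt_succ_self _),
        getD_append_last]
  · rw [← prod_erase_mul (range I.2.length) _ hmem]
    congr 1
    unfold facF
    rw [if_neg (lt_irrefl _)]
    rfl

theorem nextB_spec {I : Shop} {N n q : ℕ} (hN : 0 < N) (ds : List ℕ)
    (hk : ds.length < I.2.length) : nextB I N n q ds < N ∧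
      bval (phiB I N n q (ds ++ [nextB I N n q ds])) ≤ bval (phiB I N n q ds) := by
  unfold nextB
  rcases h : ((List.range N).find? fun d =>
    ble (phiB I N n q (ds ++ [d])) (phiB I N n q ds)) with _ | d
  · exfalso
    obtain ⟨d, hd, h1⟩ := exists_nextB (n := n) (q := q) hN ds hk
    have h2 := (List.find?_eq_none.1 h) d (List.mem_range.2 hd)
    exact h2 ((ble_iff _ _).2 h1)
  · refine ⟨List.mem_range.1 (List.mem_of_find?_eq_some h), ?_⟩
    have h1 := List.find?_some h
    exact (ble_iff _ _).1 h1

theorem iterB_spec {I : Shop} {N n q : ℕ} (hN : 0 < N) (t : ℕ) (ht : t ≤ I.2.length) :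
    (∀ d ∈ (fun ds => ds ++ [nextB I N n q ds])^[t] [], d < N) ∧
      bval (phiB I N n q ((fun ds => ds ++ [nextB I N n q ds])^[t] [])) ≤
        bval (phiB I N n q []) := by
  induction t with
  | zero => exact ⟨by simp, le_rfl⟩
  | succ t ih =>
    rw [Function.iterate_succ_apply']
    obtain ⟨ih1, ih2⟩ := ih (by omega)
    set ds := (fun ds => ds ++ [nextB I N n q ds])^[t] [] with hds
    have hl : ds.length = t := (iterB_len I N n q t).1
    have hlt : ds.length < I.2.length := by omega
    obtain ⟨h1, h2⟩ := nextB_spec (n := n) (q := q) hN ds hlt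
    refine ⟨fun d hd => ?_, h2.trans ih2⟩
    rw [List.mem_append, List.mem_singleton] at hd
    rcases hd with hd | hd
    · exact ih1 d hd
    · rw [hd]
      exact h1

/-- The inequality for the potential. -/
theorem delB_phi {I : Shop} {N n q : ℕ} (hN : 0 < N) :
    ∑ x ∈ range I.1 ×ˢ range (N + n), ∏ j ∈ range I.2.length,
        N * (q + winc (jobc I j) ((delB I N n q).getD j 0) x.1 x.2) ≤
      ∑ x ∈ range I.1 ×ˢ range (N + n), ∏ j ∈ range I.2.length,
        (q * N + meanc N (jobc I j) x.1 x.2) := by
  have h := (iterB_spec (n := n) (q := q) hN I.2.length le_rfl).2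
  rw [phiB_eq, phiB_eq] at h
  have hl := (iterB_len I N n q I.2.length).1
  refine le_trans (le_of_eq (sum_congr rfl fun x _ => prod_congr rfl fun j hj => ?_))
    (h.trans (le_of_eq (sum_congr rfl fun x _ => prod_congr rfl fun j _ => ?_)))
  · unfold facF
    rw [hl, if_pos (mem_range.1 hj)]
    rfl
  · unfold facF
    rw [if_neg (by simp)]

theorem delB_lt {I : Shop} {N n q : ℕ} (hN : 0 < N) (j : ℕ) : (delB I N n q).getD j 0 < N := by
  rw [List.getD_eq_getElem?_getD]
  rcases h : (delB I N n q)[j]? with _ | x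
  · exact hN
  · exact (iterB_spec (n := n) (q := q) hN I.2.length le_rfl).1 x (List.mem_of_getElem? h)

theorem pA_spec (I : Shop) : (∀ job ∈ I.2, ∀ o ∈ job, o.2 ≤ pA I) ∧
    ∀ p, (∀ job ∈ I.2, ∀ o ∈ job, o.2 ≤ p) → pA I ≤ p := by
  obtain ⟨h1, h2⟩ := lmax_spec (I.2.flatMap fun job => job.map Prod.snd)
  refine ⟨fun job hj o ho => h1 _ (List.mem_flatMap.2 ⟨job, hj, List.mem_map_of_mem ho⟩),
    fun p hp => ?_⟩
  unfold pA
  rcases h2 with h2 | h2
  · rw [h2]
    exact Nat.zero_le _
  · obtain ⟨job, hj, h3⟩ := List.mem_flatMap.1 h2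
    obtain ⟨o, ho, h4⟩ := List.mem_map.1 h3
    rw [← h4]
    exact hp job hj o ho

theorem startOf_algB (x : Shop × ℕ) {j i u p : ℕ} (h : IsOp x.1 j i u p) :
    startOf (algB x) j i = schc x.1 (fun j =>
      (delB x.1 (2 * x.2 * nA x.1) (nA x.1) (2 * x.2 * pA x.1)).getD j 0) j i := by
  obtain ⟨h1, h2, -⟩ := (Acc.isOp_iff _ _ _ _ _).1 h
  unfold startOf algB
  rw [List.getD_eq_getElem?_getD, List.getD_eq_getElem?_getD, List.getElem?_map,
    List.getElem?_range h1]
  simp only [Option.map_some, Option.getD_some]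
  rw [List.getElem?_map, List.getElem?_range h2]
  simp only [Option.map_some, Option.getD_some]
  rw [Acc.val_eq, Acc.bval_bin, scA_eq]

end Pool.Agent.H.JS
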