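import Pool.Agent.H.MP_aeb38e_lc.SK.Cor
import Pool.Agent.H.MP_aeb38e_lc.SJ.Main

/-!
The main theorem on short jobs, with the logarithm of the number of machines.
-/

namespace Pool.Agent.H.JS

open Finset Turing

theorem main_log : ∃ (tm : FinTM2) (iA : tm.Γ tm.k₀ ≃ Bool) (oA : tm.Γ tm.k₁ ≃ Bool)
    (P : Polynomial ℕ), ∀ (e : ℕ) (I : Shop) (n p : ℕ), 0 < e →
      (∀ j i u q, IsOp I j i u q → u < I.1 ∧ q ≤ p) → (∀ job ∈ I.2, job.length ≤ n) →
      ∃ (s : List (List (List Bool))) (K : ℕ),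
        Outputs tm iA oA (codePair codeShop codeNat (I, e)) (codeSched s)
          (P.eval (codePair codeShop codeNat (I, e)).length) ∧
        Feasible I (startOf s) ∧ EndsBy I (startOf s) K ∧
        8 * (e : ℝ) * K ≤ (8 * e + 7) * (maxLoad I + 4 * (e : ℝ) ^ 2 * (n * p) * Real.log I.1) ∧
        maxLoad I ≤ OPT I ∧
        (60 * (e : ℝ) ^ 3 * (n * p) * Real.log I.1 ≤ maxLoad I → e * K ≤ (e + 1) * OPT I) := by
  obtain ⟨tm, iA, oA, P, hM⟩ := exists_machB
  refine ⟨tm, iA, oA, P, fun e I n' p' he hI hn' => ?_⟩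
  have hm : ∀ j i u q, IsOp I j i u q → u < I.1 := fun j i u q h => (hI j i u q h).1
  have hp' : ∀ job ∈ I.2, ∀ o ∈ job, o.2 ≤ p' := by
    intro job hj o ho
    obtain ⟨j, hj'⟩ := List.mem_iff_getElem?.1 hj
    obtain ⟨i, hi'⟩ := List.mem_iff_getElem?.1 ho
    exact (hI j i o.1 o.2 ⟨job, hj', hi'⟩).2
  have hlow : maxLoad I ≤ OPT I := by
    refine Finset.sup_le fun u _ => load_le_OPT I ?_ u
    exact ⟨_, _, schc_feasible hm (fun _ => 0), schc_ends hm (N := 1) hn' (fun _ => Nat.one_pos)⟩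
  obtain ⟨hn, hnmin⟩ := nA_spec I
  obtain ⟨hp, hpmin⟩ := pA_spec I
  have hlog : 0 ≤ Real.log I.1 := Real.log_natCast_nonneg _
  have heR : (1 : ℝ) ≤ e := by exact_mod_cast he
  have key : ∃ K, Feasible I (startOf (algB (I, e))) ∧ EndsBy I (startOf (algB (I, e))) K ∧
      8 * (e : ℝ) * K ≤ (8 * e + 7) *
        (maxLoad I + 4 * (e : ℝ) ^ 2 * (nA I * pA I) * Real.log I.1) := by
    rcases Nat.eq_zero_or_pos (nA I) with h0 | h0
    · have h1 : ∀ j i u q, ¬ IsOp I j i u q := by
        intro j i u q h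
        have h2 := jobc_length hn j
        have h3 := (List.getElem?_eq_some_iff.1 (isOp_jobc.1 h)).1
        omega
      refine ⟨0, ⟨fun j i m p m' p' h _ => absurd h (h1 _ _ _ _),
        fun j i j' i' m p p' h _ _ => absurd h (h1 _ _ _ _)⟩,
        fun j i m p h => absurd h (h1 _ _ _ _), ?_⟩
      simp only [Nat.cast_zero, mul_zero]
      positivity
    · have hN : 0 < 2 * e * nA I := by positivity
      set d : ℕ → ℕ := fun j => (delB I (2 * e * nA I) (nA I) (2 * e * pA I)).getD j 0 with hd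
      have hdN : ∀ j, d j < 2 * e * nA I := fun j => delB_lt hN j
      have hst : ∀ {j i u q}, IsOp I j i u q → startOf (algB (I, e)) j i = schc I d j i :=
        fun h => startOf_algB (I, e) h
      refine ⟨startc I d (2 * e * nA I + nA I), ⟨?_, ?_⟩, ?_, ?_⟩
      · intro j i m p m' p' h h'
        rw [hst h, hst h']
        exact (schc_feasible hm d).1 j i m p m' p' h h'
      · intro j i j' i' m p p' h h' hne
        rw [hst h, hst h']
        exact (schc_feasible hm d).2 j i j' i' m p p' h h' hne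
      · intro j i m p h
        rw [hst h]
        exact schc_ends hm hn hdN j i m p h
      · rcases Nat.eq_zero_or_pos (pA I) with hp0 | hp0
        · have h1 : startc I d (2 * e * nA I + nA I) = 0 := by
            refine sum_eq_zero fun w _ => ?_
            rcases lenc_cases I d w with h | ⟨u, -, h⟩
            · exact h
            · rw [h]
              refine sum_eq_zero fun j _ => ?_
              unfold winc
              split_ifs
              · have := opc_le (jobc_time hp j) u (w - d j)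
                omega
              · rfl
          rw [h1]
          simp only [Nat.cast_zero, mul_zero]
          positivity
        · exact startc_le_log he hn hp (fun u hu => load_le_maxLoad hu) h0 hp0 d (delB_phi hN)
  obtain ⟨K, hf, hK, hle⟩ := key
  have hnp : ((nA I : ℝ) * pA I) ≤ n' * p' := by
    have h1 : nA I * pA I ≤ n' * p' := Nat.mul_le_mul (hnmin n' hn') (hpmin p' hp')
    exact_mod_cast h1
  have hle' : 8 * (e : ℝ) * K ≤
      (8 * e + 7) * (maxLoad I + 4 * (e : ℝ) ^ 2 * (n' * p') * Real.log I.1) := by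
    refine hle.trans (mul_le_mul_of_nonneg_left ?_ (by positivity))
    have h1 : 4 * (e : ℝ) ^ 2 * (nA I * pA I) * Real.log I.1 ≤
        4 * (e : ℝ) ^ 2 * (n' * p') * Real.log I.1 :=
      mul_le_mul_of_nonneg_right (mul_le_mul_of_nonneg_left hnp (by positivity)) hlog
    linarith
  refine ⟨algB (I, e), K, hM (I, e), hf, hK, hle', hlow, fun hbig => ?_⟩
  have h1 : (8 * (e : ℝ) + 7) * (4 * (e : ℝ) ^ 2 * (n' * p') * Real.log I.1) ≤ maxLoad I := by
    refine le_trans ?_ hbig
    have h2 : 0 ≤ 4 * (e : ℝ) ^ 2 * (n' * p') * Real.log I.1 := by positivity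
    calc (8 * (e : ℝ) + 7) * (4 * (e : ℝ) ^ 2 * (n' * p') * Real.log I.1) ≤
        (15 * e) * (4 * (e : ℝ) ^ 2 * (n' * p') * Real.log I.1) :=
          mul_le_mul_of_nonneg_right (by linarith) h2
      _ = _ := by ring
  have h2 : 8 * ((e : ℝ) * K) ≤ 8 * ((e + 1) * maxLoad I) := by
    calc 8 * ((e : ℝ) * K) = 8 * (e : ℝ) * K := by ring
      _ ≤ (8 * e + 7) * (maxLoad I + 4 * (e : ℝ) ^ 2 * (n' * p') * Real.log I.1) := hle'
      _ = (8 * e + 7) * maxLoad I +
          (8 * e + 7) * (4 * (e : ℝ) ^ 2 * (n' * p') * Real.log I.1) := by ring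
      _ ≤ (8 * e + 7) * maxLoad I + maxLoad I := by linarith
      _ = _ := by ring
  have h3 : (e : ℝ) * K ≤ (e + 1) * maxLoad I := by linarith
  have h4 : e * K ≤ (e + 1) * maxLoad I := by exact_mod_cast h3
  exact h4.trans (Nat.mul_le_mul_left _ hlow)

end Pool.Agent.H.JS
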